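import Pool.Agent.Lib.MP_a4c1f4_lc.Euc.FinC
import Pool.Agent.Lib.MP_a4c1f4_lc.Euc.RecC
import Pool.Agent.Lib.MP_a4c1f4_lc.Euc.CndC
import Pool.Agent.Lib.MP_a4c1f4_lc.Euc.IndC
import Pool.Agent.Lib.MP_a4c1f4_lc.Euc.NumC
import Pool.Agent.Lib.MP_a4c1f4_lc.Euc.RanC
import Pool.Agent.Lib.MP_a4c1f4_lc.Euc.PdC
import Pool.Agent.Lib.MP_a4c1f4_lc.Euc.Mix
import Pool.Agent.Lib.MP_a4c1f4_lc.Euc.Crv
import Pool.Agent.Lib.MP_a4c1f4_lc.Euc.EuC
import Pool.Agent.Lib.MP_a4c1f4_lc.Euc.Vol1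
import Pool.Agent.Lib.MP_a4c1f4_lc.Euc.Vol2
import Pool.Agent.Lib.MP_a4c1f4_lc.Euc.Pat
import Pool.Agent.Lib.MP_a4c1f4_lc.Euc.Kh
import Pool.Agent.Lib.MP_a4c1f4_lc.Euc.JL
import Pool.Agent.Lib.MP_a4c1f4_lc.Pad.Four
import Pool.Agent.Lib.MP_a4c1f4_lc.Pad.Rnd
import Pool.Agent.Lib.MP_a4c1f4_lc.Pad.Det
import Pool.Agent.Lib.MP_a4c1f4_lc.Pad.Tel
import Pool.Agent.Lib.MP_a4c1f4_lc.Pad.FamQ
import Pool.Agent.Lib.MP_a4c1f4_lc.Pad.Rs
import Pool.Agent.Lib.MP_a4c1f4_lc.Pad.Eg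
import Pool.Agent.Lib.MP_a4c1f4_lc.Pad.SumM
import Pool.Agent.Lib.MP_a4c1f4_lc.Pad.Krf
import Pool.Agent.Lib.MP_a4c1f4_lc.Pad.Amp
import Pool.Agent.Lib.MP_a4c1f4_lc.Pad.ExQ
import Pool.Agent.Lib.MP_a4c1f4_lc.Pad.LvQ
import Pool.Agent.Lib.MP_a4c1f4_lc.Pad.CoreQ
import Pool.Agent.Lib.MP_a4c1f4_lc.Dbl.Top
import Pool.Agent.Lib.MP_a4c1f4_lc.Dbl.Del
import Pool.Agent.Lib.MP_a4c1f4_lc.Dbl.OneT
import Pool.Agent.Lib.MP_a4c1f4_lc.Dbl.ExS
import Pool.Agent.Lib.MP_a4c1f4_lc.Dbl.UsC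
import Pool.Agent.Lib.MP_a4c1f4_lc.Dbl.Card
import Pool.Agent.Lib.MP_a4c1f4_lc.Dbl.Stp
import Pool.Agent.Lib.MP_a4c1f4_lc.Dbl.Pot
import Pool.Agent.Lib.MP_a4c1f4_lc.Dbl.Chn
import Pool.Agent.Lib.MP_a4c1f4_lc.Dbl.FeS
import Pool.Agent.Lib.MP_a4c1f4_lc.Dbl.AlgD
import Pool.Agent.Lib.MP_a4c1f4_lc.Dbl.Exg
import Pool.Agent.Lib.MP_a4c1f4_lc.Snow.TopP
import Pool.Agent.Lib.AM.D.Brg
import Pool.Agent.Lib.AM.D.Cmp
import Pool.Agent.Lib.AM.D.Pick
import Pool.Agent.Lib.AM.D.Rec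
import Pool.Agent.Lib.AM.D.Rel
import Pool.Agent.Lib.AM.D.Top
import Pool.Agent.Lib.AM.C.AllC
import Pool.Agent.Lib.AM.G.AllE

set_option linter.all false

/-!
Randomized online transportation (in particular online metric matching, all capacities equal to
one) in arbitrary metric spaces: ratio `O((log m)^(3/2))` up to factors `log log m`; better for
sites with padded decompositions, in tree metrics, in low dimensional Euclidean spaces, for few
distance scales and for snowflakes.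
-/

namespace Pool.Agent.Results.MP_a4c1f4_lc.AllMetrics

open Pool.Agent.MP_a4c1f4_lc.Dbl Pool.Agent.MP_a4c1f4_lc.Pad Pool.Agent.MP_a4c1f4_lc.Euc
open Pool.Agent.MP_a4c1f4_lc.Dbl.L (assigned cost Respects)

open Classical in
/-- The sites have `β`-padded decompositions: for every scale `Δ > 0` there is a random
partition (`q ω i` is the label of the cell of the site `i`) into cells of diameter at most `Δ`
such that for every site `i` and every radius `r ≥ 0` the probability that some site at distance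
at most `r` from `i` lies in another cell is at most `β r / Δ`. -/
def PaddedSites {N : Type*} [MetricSpace N] {m : ℕ} (s : Fin m → N) (β : ℝ) : Prop :=
  ∀ Δ : ℝ, 0 < Δ → ∃ (Ω : Type) (_ : Fintype Ω) (w : Ω → ℝ) (q : Ω → Fin m → Fin m),
    (∀ ω, 0 ≤ w ω) ∧ ∑ ω, w ω = 1 ∧ (∀ ω i j, q ω i = q ω j → dist (s i) (s j) ≤ Δ) ∧
    ∀ i r, 0 ≤ r → ∑ ω, w ω * (if (∃ j, dist (s i) (s j) ≤ r ∧ q ω i ≠ q ω j) then 1 else 0) ≤
      β * r / Δ

/-- Classes of sets of sites with a parameter `β`: they have `β`-padded decompositions, or they form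
a tree metric (four point condition), or they are isometric to a set in the Euclidean space of some
dimension `n` with `√n ≤ β`, or the distances between them lie in at most `β` of the intervals
`[4^k, 4^(k+1))`, `k` an integer, or for some `p > 1` with `4p/(p-1) ≤ β` the `p`-th power of the
distance satisfies the triangle inequality (snowflakes). -/
def Special {N : Type*} [MetricSpace N] {m : ℕ} (s : Fin m → N) (β : ℝ) : Prop :=
  PaddedSites s β ∨
  (∀ i j k l, dist (s i) (s j) + dist (s k) (s l) ≤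
    max (dist (s i) (s k) + dist (s j) (s l)) (dist (s i) (s l) + dist (s j) (s k))) ∨
  (∃ (n : ℕ) (f : Fin m → EuclideanSpace ℝ (Fin n)), (∀ i j, dist (f i) (f j) = dist (s i) (s j)) ∧
    √n ≤ β) ∨
  (∃ Z : Finset ℤ, (Z.card : ℝ) ≤ β ∧ ∀ i j, dist (s i) (s j) = 0 ∨
    ∃ k ∈ Z, (4 : ℝ) ^ k ≤ dist (s i) (s j) ∧ dist (s i) (s j) < (4 : ℝ) ^ (k + 1)) ∨
  ∃ p : ℝ, 1 < p ∧ 4 * p / (p - 1) ≤ β ∧
    ∀ i j k, dist (s i) (s k) ^ p ≤ dist (s i) (s j) ^ p + dist (s j) (s k) ^ p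

/-- The factor `ρ` is admissible for the `m` sites: `√(1 + ln m) ≤ ρ` (no condition on the sites), or
`β (1 + ln β) ≤ ρ` for some `β ≥ 1` such that the sites are in one of the classes above. -/
def Admissible {N : Type*} [MetricSpace N] {m : ℕ} (s : Fin m → N) (ρ : ℝ) : Prop :=
  √(1 + Real.log m) ≤ ρ ∨ ∃ β : ℝ, 1 ≤ β ∧ β * (1 + Real.log β) ≤ ρ ∧ Special s β

/-- The classes with an explicit constant. -/
private theorem aux {N : Type*} [MetricSpace N] (m : ℕ) (hm : 0 < m) (s : Fin m → N)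
    (cap : Fin m → ℕ) (hcap : ∀ j, 0 < cap j) (β : ℝ) (hβ : 1 ≤ β) (hs : Special s β) :
    ∃ (Ω : Type) (_ : Fintype Ω) (w : Ω → ℝ) (A : Ω → N → List N → Fin m),
      (∀ ω, 0 ≤ w ω) ∧ ∑ ω, w ω = 1 ∧
      (∀ ω l, l.length ≤ ∑ j, cap j → Respects cap (assigned (A ω) l)) ∧
      ∀ (l : List N) (τ : List (Fin m)), τ.length = l.length → Respects cap τ →
        ∑ ω, w ω * cost s l (assigned (A ω) l) ≤
          600000000 * β * (1 + Real.log β) * (1 + Real.log m) *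
            (1 + Real.log (1 + Real.log m)) ^ 2 * cost s l τ := by
  by_cases hS : (∃ Z : Finset ℤ, (Z.card : ℝ) ≤ β ∧ ∀ i j, dist (s i) (s j) = 0 ∨
        ∃ k ∈ Z, (4 : ℝ) ^ k ≤ dist (s i) (s j) ∧ dist (s i) (s j) < (4 : ℝ) ^ (k + 1)) ∨
      ∃ p : ℝ, 1 < p ∧ 4 * p / (p - 1) ≤ β ∧
        ∀ i j k, dist (s i) (s k) ^ p ≤ dist (s i) (s j) ^ p + dist (s j) (s k) ^ p
  · obtain ⟨Ω, fΩ, w, A, h1, h2, h3, h4⟩ :=
      Pool.Agent.MP_a4c1f4_lc.Snow.TopP.snowTop m hm s cap hcap β hβ hS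
    refine ⟨Ω, fΩ, w, A, h1, h2, h3, fun l τ hl hτ => (h4 l τ hl hτ).trans ?_⟩
    have hc : 0 ≤ cost s l τ := Pool.Agent.MP_a4c1f4_lc.Pad.FinPM.cost_nonneg s l τ
    refine mul_le_mul_of_nonneg_right ?_ hc
    have hM1 : (1 : ℝ) ≤ (m : ℝ) := by exact_mod_cast hm
    have hL : 0 ≤ Real.log (m : ℝ) := Real.log_nonneg hM1
    have hlb : 0 ≤ Real.log β := Real.log_nonneg hβ
    have hu : 0 ≤ Real.log (1 + Real.log (m : ℝ)) := Real.log_nonneg (by linarith)
    set L := Real.log (m : ℝ)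
    set u := Real.log (1 + L)
    set b := Real.log β
    have hX : 0 ≤ β * (1 + L) := by positivity
    have h5 : β * (1 + L) ≤ β * (1 + L) * (1 + b) := le_mul_of_one_le_right hX (by linarith)
    have h6 : β * (1 + L) * (1 + b) ≤ β * (1 + L) * (1 + b) * (1 + u) ^ 2 :=
      le_mul_of_one_le_right (by positivity) (by nlinarith)
    calc 120000 * β * (1 + L) = 120000 * (β * (1 + L)) := by ring
      _ ≤ 600000000 * (β * (1 + L) * (1 + b) * (1 + u) ^ 2) := by nlinarith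
      _ = 600000000 * β * (1 + b) * (1 + L) * (1 + u) ^ 2 := by ring
  have hTop := topP
  have hDel := delP hTop
  have hOneT := oneTP hTop hDel
  have hCard := cardP hTop
  have hStp := stpP hTop hDel hCard
  have hPot := potP hDel hStp
  have hChn := chnP hStp
  have hFeS := feSP hCard hStp
  have hAlgD := algDP hStp
  have hExg := exgP
  have hExQ := exQP hTop hDel hOneT exSP usCP hStp hFeS hExg
  have hLvQ := lvQP hExg hDel hExQ hPot hFeS hStp
  have hCore := coreQP hExg hChn hLvQ hFeS hAlgD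
  have hRs := rsP egP
  have hAmp := ampP egP hRs sumMP
  have hFamQ := famQP hExg egP hRs krfP hAmp
  have hRanC := ranCP (cndCP recCP) detP indCP telP numCP
  have hEuC := euCP (patP vol1P vol2P) crvP
  refine finAll hRs hFamQ hRanC hCore (pdCP rndP) fourP hEuC (jlP khP) mixP m hm s cap hcap β hβ ?_
  rcases hs with h | h | h | h | h
  · refine Or.inl fun Δ hΔ => ?_
    obtain ⟨Ω, fΩ, w, q, h1, h2, h3, h4⟩ := h Δ hΔ
    refine ⟨Ω, fΩ, w, q, h1, h2, h3, fun x r hr => le_trans (le_of_eq ?_) (h4 x r hr)⟩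
    refine Finset.sum_congr rfl fun ω _ => ?_
    by_cases hc : ∃ j, dist (s x) (s j) ≤ r ∧ q ω x ≠ q ω j
    · rw [Pool.Agent.MP_a4c1f4_lc.ind_true hc, if_pos hc]
    · rw [Pool.Agent.MP_a4c1f4_lc.ind_false hc, if_neg hc]
  · exact Or.inr (Or.inl h)
  · obtain ⟨n, f, h1, h2⟩ := h
    exact Or.inr (Or.inr ⟨n, f, h1, Or.inl h2⟩)
  · exact absurd (Or.inl h) hS
  · exact absurd (Or.inr h) hS


/-- The theorem, from the statement for the copies of the sites in an arbitrary metric. -/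
private theorem main (hAll : Pool.Agent.AM.AllProp) :
    ∃ C : ℝ, ∀ {N : Type*} [MetricSpace N] (m : ℕ), 0 < m → ∀ (s : Fin m → N) (cap : Fin m → ℕ),
      (∀ j, 0 < cap j) → ∀ ρ : ℝ, Admissible s ρ →
      ∃ (Ω : Type) (_ : Fintype Ω) (w : Ω → ℝ) (A : Ω → N → List N → Fin m),
        (∀ ω, 0 ≤ w ω) ∧ ∑ ω, w ω = 1 ∧
        (∀ ω l, l.length ≤ ∑ j, cap j → Respects cap (assigned (A ω) l)) ∧
        ∀ (l : List N) (τ : List (Fin m)), τ.length = l.length → Respects cap τ →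
          ∑ ω, w ω * cost s l (assigned (A ω) l) ≤
            C * ρ * (1 + Real.log m) * (1 + Real.log (1 + Real.log m)) ^ 2 * cost s l τ := by
  obtain ⟨C1, hC1, hA⟩ := hAll
  refine ⟨600000000 + 3 * C1, fun {N} _ m hm s cap hcap ρ hs => ?_⟩
  have hM1 : (1 : ℝ) ≤ (m : ℝ) := by exact_mod_cast hm
  have hL : 0 ≤ Real.log (m : ℝ) := Real.log_nonneg hM1
  have hu : 0 ≤ Real.log (1 + Real.log (m : ℝ)) := Real.log_nonneg (by linarith)
  rcases hs with hn | ⟨β, hβ, hβρ, hs⟩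
  · have hPM : Pool.Agent.MP_a4c1f4_lc.PM (fun i j => dist (s i) (s j)) :=
      ⟨fun x => dist_self _, fun x y => dist_comm _ _, fun x y z => dist_triangle _ _ _⟩
    have hC := hA m hm ((j : Fin m) × Fin (cap j)) Sigma.fst (fun i j => dist (s i) (s j)) hPM
    have hs1 : 1 ≤ √(1 + Real.log m) := by
      rw [Real.one_le_sqrt]
      linarith
    set c := C1 * √(1 + Real.log m) * (1 + Real.log m) * (1 + Real.log (1 + Real.log m)) ^ 2
      with hc
    have hc1 : 1 ≤ c := by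
      have e1 : 1 ≤ C1 * √(1 + Real.log m) := by nlinarith
      have e2 : 1 ≤ C1 * √(1 + Real.log m) * (1 + Real.log m) := by nlinarith
      have e3 : 1 ≤ (1 + Real.log (1 + Real.log (m : ℝ))) ^ 2 := by nlinarith
      nlinarith
    obtain ⟨Ω, fΩ, w, A, h1, h2, h3, h4⟩ := finC m hm s cap hcap c (by linarith) hC
    refine ⟨Ω, fΩ, w, A, h1, h2, h3, fun l τ ha hb => (h4 l τ ha hb).trans ?_⟩
    refine mul_le_mul_of_nonneg_right ?_ (Pool.Agent.MP_a4c1f4_lc.Pad.FinPM.cost_nonneg s l τ)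
    set L := Real.log (m : ℝ)
    set u := Real.log (1 + L)
    have e4 : c ≤ C1 * (ρ * (1 + L) * (1 + u) ^ 2) := by
      rw [hc]
      have e6 : 0 ≤ (1 + L) * (1 + u) ^ 2 := by positivity
      calc C1 * √(1 + L) * (1 + L) * (1 + u) ^ 2 = C1 * (√(1 + L) * ((1 + L) * (1 + u) ^ 2)) := by
            ring
        _ ≤ C1 * (ρ * ((1 + L) * (1 + u) ^ 2)) :=
            mul_le_mul_of_nonneg_left (mul_le_mul_of_nonneg_right hn e6) (by linarith)
        _ = _ := by ring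
    have e8 : 0 ≤ ρ := by linarith
    have e7 : 0 ≤ ρ * (1 + L) * (1 + u) ^ 2 := by positivity
    calc 1 + 2 * c ≤ 3 * c := by linarith
      _ ≤ 3 * (C1 * (ρ * (1 + L) * (1 + u) ^ 2)) := by linarith
      _ ≤ (600000000 + 3 * C1) * (ρ * (1 + L) * (1 + u) ^ 2) := by nlinarith
      _ = _ := by ring
  · have hlb : 0 ≤ Real.log β := Real.log_nonneg hβ
    obtain ⟨Ω, fΩ, w, A, h1, h2, h3, h4⟩ := aux m hm s cap hcap β hβ hs
    refine ⟨Ω, fΩ, w, A, h1, h2, h3, fun l τ ha hb => (h4 l τ ha hb).trans ?_⟩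
    refine mul_le_mul_of_nonneg_right ?_ (Pool.Agent.MP_a4c1f4_lc.Pad.FinPM.cost_nonneg s l τ)
    set L := Real.log (m : ℝ)
    set u := Real.log (1 + L)
    set b := Real.log β
    have e6 : 0 ≤ (1 + L) * (1 + u) ^ 2 := by positivity
    have e8 : 0 ≤ β * (1 + b) := by positivity
    have e9 : 0 ≤ ρ := e8.trans hβρ
    have e7 : 0 ≤ ρ * ((1 + L) * (1 + u) ^ 2) := mul_nonneg e9 e6
    calc 600000000 * β * (1 + b) * (1 + L) * (1 + u) ^ 2
        = 600000000 * (β * (1 + b) * ((1 + L) * (1 + u) ^ 2)) := by ring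
      _ ≤ 600000000 * (ρ * ((1 + L) * (1 + u) ^ 2)) :=
          mul_le_mul_of_nonneg_left (mul_le_mul_of_nonneg_right hβρ e6) (by norm_num)
      _ ≤ (600000000 + 3 * C1) * (ρ * ((1 + L) * (1 + u) ^ 2)) := by nlinarith
      _ = _ := by ring

/-- The bound for the copies of the sites in an arbitrary metric (assembly of `Pool.Agent.AM`). -/
private theorem copies : Pool.Agent.AM.AllProp :=
  Pool.Agent.AM.topP (Pool.Agent.AM.brgP Pool.Agent.AM.G.all_geom)
    (Pool.Agent.AM.cmpP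
      (Pool.Agent.AM.recP Pool.Agent.AM.allC_BlockCost Pool.Agent.AM.allC_BlockPot
        Pool.Agent.AM.allC_BlockInv Pool.Agent.AM.allC_Law Pool.Agent.AM.relP)
      Pool.Agent.AM.pickP)

/-- There is a constant `C` such that for all `m ≥ 1` sites with capacities `cap j ≥ 1` in a metric
space `N` and every factor `ρ` that is admissible for them there is a randomized online algorithm (a
finite probability space of deterministic rules) which respects the capacities on every list of at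
most `∑ j, cap j` requests and whose expected cost on every list `l` of requests is at most
`C ρ (1 + ln m) (1 + ln (1 + ln m))²` times the cost of every assignment `τ` of `l` respecting the
capacities. `ρ = √(1 + ln m)` is admissible for all sites in all metric spaces. -/
theorem result :
    ∃ C : ℝ, ∀ {N : Type*} [MetricSpace N] (m : ℕ), 0 < m → ∀ (s : Fin m → N) (cap : Fin m → ℕ),
      (∀ j, 0 < cap j) → ∀ ρ : ℝ, Admissible s ρ →
      ∃ (Ω : Type) (_ : Fintype Ω) (w : Ω → ℝ) (A : Ω → N → List N → Fin m),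
        (∀ ω, 0 ≤ w ω) ∧ ∑ ω, w ω = 1 ∧
        (∀ ω l, l.length ≤ ∑ j, cap j → Respects cap (assigned (A ω) l)) ∧
        ∀ (l : List N) (τ : List (Fin m)), τ.length = l.length → Respects cap τ →
          ∑ ω, w ω * cost s l (assigned (A ω) l) ≤
            C * ρ * (1 + Real.log m) * (1 + Real.log (1 + Real.log m)) ^ 2 * cost s l τ :=
  main copies

end Pool.Agent.Results.MP_a4c1f4_lc.AllMetrics
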