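import Pool.Agent.Lib.MP_a4c1f4_lc.LB.Spec
import Pool.Agent.Lib.MP_a4c1f4_lc.LB.Card
import Pool.Agent.Lib.MP_a4c1f4_lc.LB.NE
import Pool.Agent.Lib.MP_a4c1f4_lc.LB.Pot
import Pool.Agent.Lib.MP_a4c1f4_lc.LB.Sym
import Pool.Agent.Lib.MP_a4c1f4_lc.LB.Opt
import Pool.Agent.Lib.MP_a4c1f4_lc.LB.Inj
import Pool.Agent.Lib.MP_a4c1f4_lc.LB.EB
import Pool.Agent.Lib.MP_a4c1f4_lc.LB.ET
import Pool.Agent.Lib.MP_a4c1f4_lc.LB.Alg
import Pool.Agent.Lib.MP_a4c1f4_lc.LB.PI
import Pool.Agent.Lib.MP_a4c1f4_lc.LB.Intg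
import Pool.Agent.Lib.MP_a4c1f4_lc.LB.Main
import Pool.Agent.Lib.MP_a4c1f4_lc.LB.CorA
import Pool.Agent.Lib.MP_a4c1f4_lc.LB.CorB
import Pool.Agent.Lib.MP_a4c1f4_lc.LB.Hrb
import Pool.Agent.Lib.MP_a4c1f4_lc.LB.Asym
import Pool.Agent.Lib.MP_a4c1f4_lc.LB.CorC

set_option linter.all false

/-!
A lower bound for the randomized competitive ratio of online metric assignment which is
larger than the value `2 H_m - 1` of the star for every `m ≥ 6`, by an amount which tends to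
infinity with `m`.
-/

namespace Pool.Agent.Results.MP_a4c1f4_lc.BeyondStar

open Pool.Agent.MP_a4c1f4_lc.LB

/-- `LowerBound m b`: for some metric space with `m` distinct sites, every randomized online
assignment algorithm with competitive ratio `c` on this space has `b ≤ c`. -/
def LowerBound (m : ℕ) (b : ℝ) : Prop :=
  ∃ (N : Type) (_ : MetricSpace N) (s : Fin m → N), Function.Injective s ∧
    ∀ c : ℝ, Competitive s c → b ≤ c

theorem result :
    (∀ m : ℕ, 2 ≤ m → LowerBound m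
      ((harmonic (m - 1) : ℝ) + √(((harmonic (m - 1) : ℝ) - 1) ^ 2 + 1))) ∧
    (∀ m : ℕ, 6 ≤ m → 2 * (harmonic m : ℝ) - 1 <
      (harmonic (m - 1) : ℝ) + √(((harmonic (m - 1) : ℝ) - 1) ^ 2 + 1)) ∧
    (∀ ε : ℝ, 0 < ε → ∀ᶠ m : ℕ in Filter.atTop, LowerBound m
      (2 * (harmonic m : ℝ) + (2 - ε) * Real.log (Real.log m))) := by
  have hCard := stmtCard
  have hNE := stmtNE hCard
  have hPot := stmtPot hCard
  have hSym := stmtSym
  have hInj := stmtInj
  have hEB := stmtEB hCard hNE hSym hInj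
  have hET := stmtET hCard hNE hSym hInj
  have hPI := stmtPI hPot hEB hET stmtAlg hInj
  have hMain := stmtMain hPI stmtIntg stmtOpt hInj stmtAlg
  have hAsym := stmtAsym stmtHrb
  exact ⟨stmtCorA hMain stmtHrb, stmtCorB, stmtCorC hMain hAsym stmtHrb⟩

end Pool.Agent.Results.MP_a4c1f4_lc.BeyondStar
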