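import Pool.Agent.Lib.MP_a4c1f4_lc.Dbl.Fin
import Pool.Agent.Lib.MP_a4c1f4_lc.Dbl.Top
import Pool.Agent.Lib.MP_a4c1f4_lc.Dbl.Del
import Pool.Agent.Lib.MP_a4c1f4_lc.Dbl.OneT
import Pool.Agent.Lib.MP_a4c1f4_lc.Dbl.ExS
import Pool.Agent.Lib.MP_a4c1f4_lc.Dbl.UsC
import Pool.Agent.Lib.MP_a4c1f4_lc.Dbl.Card
import Pool.Agent.Lib.MP_a4c1f4_lc.Dbl.Stp
import Pool.Agent.Lib.MP_a4c1f4_lc.Dbl.Pot
import Pool.Agent.Lib.MP_a4c1f4_lc.Dbl.Chn
import Pool.Agent.Lib.MP_a4c1f4_lc.Dbl.MvE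
import Pool.Agent.Lib.MP_a4c1f4_lc.Dbl.FeS
import Pool.Agent.Lib.MP_a4c1f4_lc.Dbl.AlgD
import Pool.Agent.Lib.MP_a4c1f4_lc.Dbl.Exg
import Pool.Agent.Lib.MP_a4c1f4_lc.Dbl.MaxG
import Pool.Agent.Lib.MP_a4c1f4_lc.Dbl.NumC
import Pool.Agent.Lib.MP_a4c1f4_lc.Dbl.ExM
import Pool.Agent.Lib.MP_a4c1f4_lc.Dbl.ExP
import Pool.Agent.Lib.MP_a4c1f4_lc.Dbl.LvC
import Pool.Agent.Lib.MP_a4c1f4_lc.Dbl.Par
import Pool.Agent.Lib.MP_a4c1f4_lc.Dbl.Net
import Pool.Agent.Lib.MP_a4c1f4_lc.Dbl.Pack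
import Pool.Agent.Lib.MP_a4c1f4_lc.Dbl.Harm
import Pool.Agent.Lib.MP_a4c1f4_lc.Dbl.Cut
import Pool.Agent.Lib.MP_a4c1f4_lc.Dbl.RHd
import Pool.Agent.Lib.MP_a4c1f4_lc.Dbl.RHp
import Pool.Agent.Lib.MP_a4c1f4_lc.Dbl.Ult
import Pool.Agent.Lib.MP_a4c1f4_lc.Dbl.Core
import Pool.Agent.Lib.MP_a4c1f4_lc.Dbl.LPre
import Pool.Agent.Lib.MP_a4c1f4_lc.Dbl.LUse
import Pool.Agent.Lib.MP_a4c1f4_lc.Dbl.LHit
import Pool.Agent.Lib.MP_a4c1f4_lc.Dbl.LAvg
import Pool.Agent.Lib.MP_a4c1f4_lc.Dbl.LOpt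
import Pool.Agent.Lib.MP_a4c1f4_lc.Dbl.LInt
import Pool.Agent.Lib.MP_a4c1f4_lc.Dbl.LNet
import Pool.Agent.Lib.MP_a4c1f4_lc.Dbl.LFin
import Pool.Agent.Lib.MP_a4c1f4_lc.Dbl.LUp

set_option linter.all false

/-!
Randomized online transportation (in particular online metric assignment, all capacities
equal to one): the optimal competitive ratio in terms of the doubling constant of the sites, up
to a constant factor in ultrametrics and up to a factor `O(log m)` in arbitrary metric spaces.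
-/

namespace Pool.Agent.Results.MP_a4c1f4_lc.Doubling

open Pool.Agent.MP_a4c1f4_lc.Dbl
open Pool.Agent.MP_a4c1f4_lc.Dbl.L (Competitive dcon)

/-- Online transportation for `m ≥ 2` distinct sites with arbitrary capacities in a metric space.
Let `K = dcon s` be the doubling constant of the set of the sites. The competitive ratio of every
randomized online algorithm is at least `(1 + ln K) / 10`; there is an algorithm with ratio at most
`26000 (1 + ln K) (1 + ln m)`, and, if the sites form an ultrametric, one with ratio at most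
`1350 (1 + ln K)`. -/
theorem result {N : Type} [MetricSpace N] (m : ℕ) (hm : 2 ≤ m) (s : Fin m → N)
    (hs : Function.Injective s) (cap : Fin m → ℕ) (hcap : ∀ j, 0 < cap j) :
    (∀ c, Competitive s cap c → (1 + Real.log (dcon s)) / 10 ≤ c) ∧
    Competitive s cap (26000 * (1 + Real.log (dcon s)) * (1 + Real.log m)) ∧
    ((∀ i j k, dist (s i) (s k) ≤ max (dist (s i) (s j)) (dist (s j) (s k))) →
      Competitive s cap (1350 * (1 + Real.log (dcon s)))) := by
  have hTop := topP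
  have hDel := delP hTop
  have hOneT := oneTP hTop hDel
  have hCard := cardP hTop
  have hStp := stpP hTop hDel hCard
  have hPot := potP hDel hStp
  have hChn := chnP hStp
  have hMvE := mvEP hStp
  have hFeS := feSP hCard hStp
  have hAlgD := algDP hStp
  have hExg := exgP
  have hMaxG := maxGP hExg
  have hExM := exMP hExg hMaxG numCP
  have hExP := exPP hTop hDel hOneT exSP usCP hStp hFeS hExg
  have hLvC := lvCP hExg hMvE hExP hPot hExM hFeS hStp
  have hCore := coreP hExg hChn hLvC parP hFeS hAlgD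
  have hCut := cutP harmP
  have hRHd := rhdP netP packP
  have hRHp := rhpP hRHd hCut
  have hUlt := ultP packP
  have hPre := L.preP
  have hUse := L.useP hPre
  have hHit := L.hitP hUse
  have hAvg := L.avgP hUse hHit
  have hOpt := L.optP hPre
  have hInt := L.intP hPre hAvg hOpt
  have hNet := L.lnetP
  have hLow := L.lowP hInt hNet
  exact finAll hCore hRHp hUlt L.upP hLow hNet m hm s hs cap hcap

end Pool.Agent.Results.MP_a4c1f4_lc.Doubling
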