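import Mathlib
import Pool.Agent.Lib.MP_a4c1f4_lc.Dbl.LDefs
import Pool.Agent.Lib.MP_a4c1f4_lc.SM.All
import Pool.Agent.Lib.MP_a4c1f4_lc.SM.Amb
import Pool.Agent.Lib.MP_a4c1f4_lc.SM.Cir
import Pool.Agent.Lib.MP_a4c1f4_lc.SM.Cut

set_option linter.all false

/-!
Online matching and transportation on the line (and on the circle, and in spaces with a random
embedding into the line): the randomized competitive ratio is `O(√(log (min n m)))` for `n` requests
and `m` sites with arbitrary capacities.
-/

namespace Pool.Agent.Results.MP_a4c1f4_lc.LineRoot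

open Pool.Agent.MP_a4c1f4_lc
open Pool.Agent.MP_a4c1f4_lc.Dbl.L (assigned cost Respects)

/-- The sites are isometric to a set of reals. -/
def OnLine {N : Type*} [MetricSpace N] {m : ℕ} (s : Fin m → N) : Prop :=
  ∃ f : Fin m → ℝ, ∀ i j, dist (s i) (s j) = |f i - f j|

/-- The sites lie on a circle of some length `L` (with the coordinates `θ i ∈ [0, L)`); their
distances are the lengths of the shorter arcs. -/
def OnCircle {N : Type*} [MetricSpace N] {m : ℕ} (s : Fin m → N) : Prop :=
  ∃ (L : ℝ) (θ : Fin m → ℝ), (∀ i, 0 ≤ θ i ∧ θ i < L) ∧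
    ∀ i j, dist (s i) (s j) = min |θ i - θ j| (L - |θ i - θ j|)

/-- The sites have a random embedding into the real line (a finite probability space of maps which
do not decrease distances) which increases every distance by at most the factor `K` on average. -/
def LineStretch {N : Type*} [MetricSpace N] {m : ℕ} (s : Fin m → N) (K : ℝ) : Prop :=
  ∃ (r : ℕ) (p : Fin r → ℝ) (φ : Fin r → Fin m → ℝ), (∀ k, 0 ≤ p k) ∧ ∑ k, p k = 1 ∧
    (∀ k i j, dist (s i) (s j) ≤ |φ k i - φ k j|) ∧
    ∀ i j, ∑ k, p k * |φ k i - φ k j| ≤ K * dist (s i) (s j)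

/-- The number `K` is admissible for the sites: `K = 1` and the sites are isometric to a set of
reals, or `K = 2` and they lie on a circle, or `K ≥ 1` and they have a random embedding into the
line with average stretch at most `K`. -/
def Admissible {N : Type*} [MetricSpace N] {m : ℕ} (s : Fin m → N) (K : ℝ) : Prop :=
  (K = 1 ∧ OnLine s) ∨ (K = 2 ∧ OnCircle s) ∨ (1 ≤ K ∧ LineStretch s K)

/-- Online transportation for `m ≥ 1` sites with arbitrary capacities in a metric space. There is an
absolute constant `C` such that for all sites and capacities and every admissible `K` (`K = 1` for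
sites on the line, `K = 2` on a circle) there is a randomized online algorithm (a probability
space of deterministic online rules which respect the capacities on all lists of at most
`∑ j, cap j` requests), which does not know the number of the requests, such that on every list
of `n` requests (anywhere in the space) its expected cost is at most
`C K √(log (min n m + 1))` times the cost of every assignment of these requests which respects
the capacities. -/
theorem result : ∃ C : ℝ, 0 < C ∧
    ∀ (N : Type*) (_ : MetricSpace N) (m : ℕ) (_ : 0 < m) (s : Fin m → N) (cap : Fin m → ℕ)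
      (K : ℝ), Admissible s K →
    ∃ (Ω : Type) (_ : MeasurableSpace Ω) (μ : MeasureTheory.Measure Ω)
      (_ : MeasureTheory.IsProbabilityMeasure μ) (A : Ω → N → List N → Fin m),
      (∀ x l, Measurable (fun ω => A ω x l)) ∧
      (∀ ω l, l.length ≤ ∑ j, cap j → Respects cap (assigned (A ω) l)) ∧
      ∀ (l : List N) (τ : List (Fin m)), τ.length = l.length → Respects cap τ →
        ∫ ω, cost s l (assigned (A ω) l) ∂μ ≤
          C * K * Real.sqrt (Real.log ((min l.length m : ℕ) + 1)) * cost s l τ := by
  obtain ⟨C, hC, h⟩ := SM.cirP SM.final2P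
  refine ⟨C, hC, fun N iN m hm s cap K hK => ?_⟩
  rcases hK with ⟨hK, f, hf⟩ | ⟨hK, hs⟩ | ⟨hK, hs⟩
  · have h1 : SM.LineStretch s K := by
      refine ⟨1, fun _ => 1, fun _ => f, fun _ => zero_le_one, by simp, fun _ i j => (hf i j).le,
        fun i j => ?_⟩
      rw [hf i j, hK]
      simp
    exact h N iN m hm s cap K hK.ge h1
  · rw [hK]
    exact h N iN m hm s cap 2 (by norm_num) (SM.cutP hm s hs)
  · exact h N iN m hm s cap K hK hs

end Pool.Agent.Results.MP_a4c1f4_lc.LineRoot
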